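import Pool.Agent.TH395.P5.MStm

set_option autoImplicit false
set_option linter.unusedSectionVars false

/-! # PF-E: the main induction -/

namespace Pool.Agent.TH599.P5.MAIN

open Finset Pool.Agent.TH462.T4 Pool.Agent.TH676.T4 Pool.Agent.TH395.P5

variable {V E : Type} [Fintype V] [DecidableEq V] [Fintype E] [DecidableEq E]

theorem mc_PD (w : ℕ) :
    MC (V := V) (E := E) (fun s d => Pool.Agent.TH497.PW.HasPD w s d) where
  del := fun s d e h _ => Pool.Agent.TH497.PW.HasPD.loop s d {e} h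
  con := fun s d e h hne => Pool.Agent.TH497.PW.HasPD.contract s d e h hne

/-- a graph whose edges are loops has a flow -/
theorem flow_loops {src dst : E → V} (h : ∀ e, src e = dst e) : FlowOn src dst ∅ ∅ := by
  refine ⟨fun _ => (1, 1), fun v => ?_, fun e he => absurd he (notMem_empty _),
    fun e _ _ => by change ((1, 1) : K4) ≠ 0; decide⟩
  unfold bd
  refine sum_eq_zero fun e _ => ?_
  rw [h e]
  exact K4.add_self _

/-- the vertices of `P` are the isolated ones and those of a table state -/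
def GoodP (tb : List QS) (src dst : E → V) (P : Finset V) : Prop :=
  ∃ q ∈ tb, ∃ φ : ℕ → V, Emb src dst q.n (edOf q.ops) (q.rt.map Prod.fst) φ ∧
    ∀ x, x ∈ P ↔ (¬ Nis src dst x ∨ ∃ i, i < q.n ∧ φ i = x)

theorem step (hp : Parts) {tb : List QS} (hT : ∀ q ∈ tb, ∃ c, chkA tb q c q.rt [] [] = true)
    {src dst : E → V} (hM : MinCx src dst) (hnp : ¬ PetMinor src dst) {P : Finset V}
    (hG : GoodP tb src dst P) {v : V} (hv : v ∉ P)
    (hb : (Pool.Agent.TH497.PW.bd src dst (insert v P)).card ≤ 5) :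
    GoodP tb src dst (insert v P) := by
  obtain ⟨q, hq, φ, hE, hx⟩ := hG
  have nv : Nis src dst v := by
    by_contra h
    exact hv ((hx v).mpr (Or.inl h))
  have hvi : ∀ i, i < q.n → v ≠ φ i := by
    intro i hi h
    exact hv ((hx v).mpr (Or.inr ⟨i, hi, h.symm⟩))
  obtain ⟨c, hc⟩ := hT q hq
  have hmem : ∀ x, x ∈ insert v P ↔
      (¬ Nis src dst x ∨ ∃ i, i < q.n + 1 ∧ nxt φ q.n v i = x) := by
    intro x
    rw [mem_insert, hx]
    constructor
    · rintro (h | h | ⟨i, hi, hi2⟩)
      · exact Or.inr ⟨q.n, Nat.lt_succ_self _, by rw [nxt_self, h]⟩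
      · exact Or.inl h
      · exact Or.inr ⟨i, hi.trans (Nat.lt_succ_self _), by rw [nxt_lt hi, hi2]⟩
    · rintro (h | ⟨i, hi, hi2⟩)
      · exact Or.inr (Or.inl h)
      · rcases Nat.lt_succ_iff_lt_or_eq.mp hi with h | h
        · rw [nxt_lt h] at hi2
          exact Or.inr (Or.inr ⟨i, h, hi2⟩)
        · rw [h, nxt_self] at hi2
          exact Or.inl hi2.symm
  have hinj : ∀ i j, i < q.n + 1 → j < q.n + 1 → nxt φ q.n v i = nxt φ q.n v j → i = j := by
    intro i j hi hj hij
    rcases Nat.lt_succ_iff_lt_or_eq.mp hi with a | a <;>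
      rcases Nat.lt_succ_iff_lt_or_eq.mp hj with b | b
    · rw [nxt_lt a, nxt_lt b] at hij
      exact hE.inj i j a b hij
    · subst b
      rw [nxt_lt a, nxt_self] at hij
      exact absurd hij.symm (hvi i a)
    · subst a
      rw [nxt_lt b, nxt_self] at hij
      exact absurd hij (hvi j b)
    · rw [a, b]
  have hbd : ∀ rt : List ℕ, rt.Nodup →
      (∀ i ∈ rt, i < q.n + 1 ∧ Outs src dst (q.n + 1) (nxt φ q.n v) i) → rt.length ≤ 5 := by
    intro rt hnd hrt
    have h1 : (rt.toFinset.image (nxt φ q.n v)).card = rt.length := by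
      rw [card_image_of_injOn, List.toFinset_card_of_nodup hnd]
      intro i hi j hj hij
      rw [mem_coe, List.mem_toFinset] at hi hj
      exact hinj i j (hrt i hi).1 (hrt j hj).1 hij
    rw [← h1]
    refine (card_le_card ?_).trans hb
    intro x hxm
    obtain ⟨i, hi, rfl⟩ := mem_image.mp hxm
    rw [List.mem_toFinset] at hi
    obtain ⟨hi1, e, y, hj, hy, hy2⟩ := hrt i hi
    rw [Pool.Agent.TH497.PW.mem_bd]
    refine ⟨(hmem _).mpr (Or.inr ⟨i, hi1, rfl⟩), ?_⟩
    have hyn : Nis src dst y := JV.nis_right hj hy.symm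
    have hyP : y ∉ insert v P := by
      intro h
      rcases (hmem y).mp h with h2 | ⟨j, hj1, hj2⟩
      · exact h2 hyn
      · exact hy2 j hj1 hj2.symm
    intro hcpt
    rcases hj with ⟨a, b⟩ | ⟨a, b⟩
    · exact hyP (b ▸ (hcpt e (by rw [a, b]; exact hy.symm) (Or.inl a)).2)
    · exact hyP (a ▸ (hcpt e (by rw [a, b]; exact hy) (Or.inr b)).1)
  obtain ⟨q', hq', ψ, hE', himg⟩ := chkA_sound hp hM hnp hE hvi nv hbd c q.rt [] [] hc
    (fun r hr => hr) (by simp) (by simp) (fun r hr => Or.inl hr)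
  refine ⟨q', hq', ψ, hE', fun x => ?_⟩
  rw [hmem, himg]

theorem explore (hp : Parts) {tb : List QS} (hT : ∀ q ∈ tb, ∃ c, chkA tb q c q.rt [] [] = true)
    {src dst : E → V} (hM : MinCx src dst) (hnp : ¬ PetMinor src dst) (rk : V → ℕ)
    (hb : ∀ P : Finset V, (∀ x ∈ P, Nis src dst x → ∀ y, y ∉ P → Nis src dst y → rk x ≤ rk y) →
      (Pool.Agent.TH497.PW.bd src dst P).card ≤ 5) (m : ℕ) :
    ∀ P : Finset V, (univ \ P).card = m →
    (∀ x ∈ P, Nis src dst x → ∀ y, y ∉ P → Nis src dst y → rk x ≤ rk y) →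
    GoodP tb src dst P → GoodP tb src dst univ := by
  induction m with
  | zero =>
    intro P hP _ hG
    rw [card_eq_zero, sdiff_eq_empty_iff_subset, univ_subset_iff] at hP
    rw [← hP]; exact hG
  | succ m ih =>
    intro P hP hini hG
    have hne : (univ \ P).Nonempty := by
      rw [← card_pos, hP]; omega
    obtain ⟨v, hv, hmin⟩ := exists_min_image (univ \ P) rk hne
    have hvP : v ∉ P := (mem_sdiff.mp hv).2
    have hini' : ∀ x ∈ insert v P, Nis src dst x → ∀ y, y ∉ insert v P → Nis src dst y →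
        rk x ≤ rk y := by
      intro x hx hnx y hy hny
      have hyP : y ∉ P := fun h => hy (mem_insert_of_mem h)
      rcases mem_insert.mp hx with h | h
      · rw [h]; exact hmin y (mem_sdiff.mpr ⟨mem_univ _, hyP⟩)
      · exact hini x h hnx y hyP hny
    have hcard : (univ \ insert v P).card = m := by
      have h1 : univ \ insert v P = (univ \ P).erase v := by
        ext x
        simp only [mem_sdiff, mem_univ, true_and, mem_insert, not_or, mem_erase]
      rw [h1, card_erase_of_mem hv, hP]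
      rfl
    exact ih (insert v P) hcard hini' (step hp hT hM hnp hG hvP (hb _ hini'))

/-- no edge of a minimal counterexample is proper: contradiction -/
theorem main_min (hp : Parts) {tb : List QS} (hT : ∀ q ∈ tb, ∃ c, chkA tb q c q.rt [] [] = true)
    (h0 : ∃ q ∈ tb, q.n = 0 ∧ q.ops = [] ∧ q.rt = []) (hz : ∀ q ∈ tb, q.rt = [] → q.n = 0)
    {src dst : E → V} (hM : MinCx src dst) (hnp : ¬ PetMinor src dst)
    (hPD : Pool.Agent.TH497.PW.HasPD 6 src dst) : False := by
  classical
  rcases isEmpty_or_nonempty V with hV | ⟨⟨v0⟩⟩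
  · exact hM.nf (flow_loops fun e => (hV.false (src e)).elim)
  obtain ⟨rk, hrk⟩ := Pool.Agent.TH497.PW.HasPD.bound (W := 5) hPD
  set P0 : Finset V := univ.filter (fun x => ¬ Nis src dst x) with hP0
  have hm : ∀ x, x ∈ P0 ↔ ¬ Nis src dst x := by intro x; simp [hP0]
  obtain ⟨q0, hq0, hn0, ho0, hr0⟩ := h0
  have hG0 : GoodP tb src dst P0 := by
    refine ⟨q0, hq0, fun _ => v0, ?_, ?_⟩
    · rw [hn0, ho0, hr0]
      refine ⟨?_, ?_, ?_, ?_, ?_, ?_, ?_, ?_⟩
      · intro i j hi; exact absurd hi (Nat.not_lt_zero _)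
      · intro p hp; exact absurd hp (by simp [edOf])
      · intro p hp; exact absurd hp (by simp [edOf])
      · intro i j _ hj; exact absurd hj (Nat.not_lt_zero _)
      · intro i hi; exact absurd hi (Nat.not_lt_zero _)
      · intro i hi; exact absurd hi (by simp)
      · intro i hi; exact absurd hi (by simp)
      · intro i hi; exact absurd hi (Nat.not_lt_zero _)
    · intro x
      rw [hm, hn0]
      constructor
      · intro h; exact Or.inl h
      · rintro (h | ⟨i, hi, _⟩)
        · exact h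
        · exact absurd hi (Nat.not_lt_zero _)
  have hGu := explore hp hT hM hnp rk hrk _ P0 rfl
    (fun x hx hnx => absurd hnx ((hm x).mp hx)) hG0
  obtain ⟨q, hq, φ, hE, hx⟩ := hGu
  have hrt : q.rt = [] := by
    rcases hr : q.rt with _ | ⟨r, l⟩
    · rfl
    · exfalso
      have hmemr : r.1 ∈ q.rt.map Prod.fst := by rw [hr]; simp
      obtain ⟨e, y, hj, hy, hy2⟩ := hE.out r.1 hmemr
      rcases (hx y).mp (mem_univ _) with h | ⟨j, hj1, hj2⟩
      · exact h (JV.nis_right hj hy.symm)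
      · exact hy2 j hj1 hj2.symm
  have hn : q.n = 0 := hz q hq hrt
  refine hM.nf (flow_loops fun e => ?_)
  by_contra hne
  rcases (hx (src e)).mp (mem_univ _) with h | ⟨j, hj1, _⟩
  · exact h ⟨e, hne, Or.inl rfl⟩
  · rw [hn] at hj1
    exact absurd hj1 (Nat.not_lt_zero _)

theorem t : S_MAIN := by
  intro tb hT h0 hz hp V E _ _ _ _ src dst hPD hnp hB
  by_contra hF
  obtain ⟨s, d, ⟨h1, h2⟩, h3⟩ := exists_minCx
    (Pool.Agent.TH676.T4.MC.and (mc_PD (V := V) (E := E) 6) mc_noPet) src dst ⟨hPD, hnp⟩ hB hF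
  exact main_min hp hT h0 hz h3 h2 h1

end Pool.Agent.TH599.P5.MAIN
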